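import Pool.Agent.KS6_56.KS.Avg

/-! The pointwise inequality. -/

set_option autoImplicit false

namespace Pool.Agent.KS6_56.KS

variable {V : Type*} [NormedAddCommGroup V] [InnerProductSpace ℝ V]

theorem sum_offdiag {k : ℕ} (f : Fin k → Fin k → ℝ) :
    ∑ j, ∑ i, (if i = j then 0 else f i j) = ∑ j, ∑ i, f i j - ∑ i, f i i := by
  have h : ∀ j, ∑ i, (if i = j then 0 else f i j) = ∑ i, f i j - f j j := by
    intro j
    have h1 : ∀ i, (if i = j then 0 else f i j) = f i j - (if i = j then f j j else 0) := by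
      intro i
      split_ifs with hij
      · rw [hij]; ring
      · ring
    simp only [h1, Finset.sum_sub_distrib, Finset.sum_ite_eq', Finset.mem_univ, if_true]
  simp only [h, Finset.sum_sub_distrib]

theorem alg {k : ℕ} (hk : 2 ≤ k) {A : Fin k → Fin k → V} (hA : ∀ i j, A i j = A j i) {n : V}
    {l : Fin k → ℝ} {α c t τ r2 : ℝ} (hα : α = 3 * k / (2 * (k - 1)))
    (hc : (k + 2) * c ^ 2 < 3 * k) (ht : 0 < t)
    (h1 : ∀ s : Fin k → ℝ, (∀ i, s i ^ 2 = 1) → ‖qf A s‖ ^ 2 ≤ (c * (k * t)) ^ 2)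
    (h2 : ∀ i, ‖A i i‖ ^ 2 ≤ (c * t) ^ 2)
    (hn : ‖n‖ ^ 2 = r2 - τ) (hτ : (k + 2) * τ ≤ 2 * (k - 1) * (1 - r2)) :
    0 < ∑ j, ∑ i, (if i = j then 0 else
      (inner ℝ (A i i) (A j j) - ‖A i j‖ ^ 2)
      + α * (t * inner ℝ n (A i i) + t * inner ℝ n (A j j) + 2 * t ^ 2)
      + α ^ 2 * (t * l i ^ 2 + t * l j ^ 2 - τ * t ^ 2)) := by
  have hk2 : (2 : ℝ) ≤ k := by exact_mod_cast hk
  set K : ℝ := (k : ℝ) with hK
  have hm : 0 < K - 1 := by linarith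
  set H : V := ∑ i, A i i with hH
  set S : ℝ := ∑ i, ∑ j, ‖A i j‖ ^ 2 with hS
  set L : ℝ := ∑ i, l i ^ 2 with hL
  have hL0 : 0 ≤ L := Finset.sum_nonneg fun i _ => sq_nonneg _
  have htr := trace_ineq A hA h1 h2
  rw [sum_offdiag (fun i j => (inner ℝ (A i i) (A j j) - ‖A i j‖ ^ 2)
      + α * (t * inner ℝ n (A i i) + t * inner ℝ n (A j j) + 2 * t ^ 2)
      + α ^ 2 * (t * l i ^ 2 + t * l j ^ 2 - τ * t ^ 2))]
  have e1 : ∑ j, ∑ i, inner ℝ (A i i) (A j j) = ‖H‖ ^ 2 := by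
    rw [← real_inner_self_eq_norm_sq, hH, inner_sum]
    refine Finset.sum_congr rfl fun j _ => ?_
    rw [sum_inner]
  have e2 : ∑ j, ∑ i, ‖A i j‖ ^ 2 = S := by rw [hS, Finset.sum_comm]
  have e3 : ∑ i, inner ℝ n (A i i) = inner ℝ n H := by rw [hH, inner_sum]
  have e4 : ∑ j : Fin k, ∑ i : Fin k, (t * inner ℝ n (A i i) + t * inner ℝ n (A j j) + 2 * t ^ 2) =
      2 * K * t * inner ℝ n H + 2 * K ^ 2 * t ^ 2 := by
    simp only [Finset.sum_add_distrib, ← Finset.mul_sum, e3, Finset.sum_const, Finset.card_univ,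
      Fintype.card_fin, nsmul_eq_mul]
    ring
  have e5 : ∑ j : Fin k, ∑ i : Fin k, (t * l i ^ 2 + t * l j ^ 2 - τ * t ^ 2) =
      2 * K * t * L - K ^ 2 * τ * t ^ 2 := by
    simp only [Finset.sum_add_distrib, Finset.sum_sub_distrib, ← Finset.mul_sum, ← hL,
      Finset.sum_const, Finset.card_univ, Fintype.card_fin, nsmul_eq_mul]
    ring
  have e6 : ∑ i : Fin k, (t * inner ℝ n (A i i) + t * inner ℝ n (A i i) + 2 * t ^ 2) =
      2 * t * inner ℝ n H + 2 * K * t ^ 2 := by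
    simp only [Finset.sum_add_distrib, ← Finset.mul_sum, e3, Finset.sum_const, Finset.card_univ,
      Fintype.card_fin, nsmul_eq_mul]
    ring
  have e7 : ∑ i : Fin k, (t * l i ^ 2 + t * l i ^ 2 - τ * t ^ 2) =
      2 * t * L - K * τ * t ^ 2 := by
    simp only [Finset.sum_add_distrib, Finset.sum_sub_distrib, ← Finset.mul_sum, ← hL,
      Finset.sum_const, Finset.card_univ, Fintype.card_fin, nsmul_eq_mul]
    ring
  have e8 : ∑ i : Fin k, (inner ℝ (A i i) (A i i) - ‖A i i‖ ^ 2) = 0 := by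
    refine Finset.sum_eq_zero fun i _ => ?_
    rw [real_inner_self_eq_norm_sq, sub_self]
  have htot : ∑ j, ∑ i, ((inner ℝ (A i i) (A j j) - ‖A i j‖ ^ 2)
      + α * (t * inner ℝ n (A i i) + t * inner ℝ n (A j j) + 2 * t ^ 2)
      + α ^ 2 * (t * l i ^ 2 + t * l j ^ 2 - τ * t ^ 2))
      - ∑ i, ((inner ℝ (A i i) (A i i) - ‖A i i‖ ^ 2)
      + α * (t * inner ℝ n (A i i) + t * inner ℝ n (A i i) + 2 * t ^ 2)
      + α ^ 2 * (t * l i ^ 2 + t * l i ^ 2 - τ * t ^ 2)) =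
      (‖H‖ ^ 2 - S) + α * (K - 1) * (2 * t * inner ℝ n H + 2 * K * t ^ 2)
      + α * (α * (K - 1)) * (2 * t * L - K * τ * t ^ 2) := by
    simp only [Finset.sum_add_distrib, ← Finset.mul_sum, Finset.sum_sub_distrib] at e4 e5 e6 e7 e8 ⊢
    rw [e1, e2]
    simp only [Finset.sum_add_distrib, ← Finset.mul_sum, Finset.sum_sub_distrib, e4, e5, e6, e7]
    linear_combination (-1 : ℝ) * e8
  rw [htot]
  have hαm : α * (K - 1) = 3 * K / 2 := by
    rw [hα]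
    field_simp
  rw [hαm]
  have hα1 : 0 < α := by rw [hα]; positivity
  have hα2 : (α - 1) * τ ≤ 1 - r2 := by
    have h3 : (α - 1) * (2 * (K - 1)) = K + 2 := by
      have : α * (2 * (K - 1)) = 3 * K := by linarith
      linarith
    have h4 : ((α - 1) * τ) * (2 * (K - 1)) ≤ (1 - r2) * (2 * (K - 1)) := by
      calc ((α - 1) * τ) * (2 * (K - 1)) = (K + 2) * τ := by rw [← h3]; ring
        _ ≤ 2 * (K - 1) * (1 - r2) := hτ
        _ = _ := by ring
    exact le_of_mul_le_mul_right h4 (by linarith)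
  have hsq : 0 ≤ ‖H + (K * t) • n‖ ^ 2 := sq_nonneg _
  rw [norm_add_sq_real H ((K * t) • n), inner_smul_right, norm_smul, real_inner_comm] at hsq
  have hnt : (‖(K * t : ℝ)‖ * ‖n‖) ^ 2 = K ^ 2 * t ^ 2 * (r2 - τ) := by
    rw [mul_pow, hn, Real.norm_eq_abs, sq_abs]
    ring
  rw [hnt] at hsq
  have ht2 : 0 < t ^ 2 := by positivity
  have hfin : 0 < (K * t ^ 2) * (3 * K - (K + 2) * c ^ 2) :=
    mul_pos (by positivity) (by linarith)
  have hfin2 : 0 ≤ (K ^ 2 * t ^ 2) * ((1 - r2) - (α - 1) * τ) :=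
    mul_nonneg (by positivity) (by linarith)
  have hla2 : 0 ≤ α * K * t * L := by positivity
  have htr2 : ‖H‖ ^ 2 + 2 * S ≤ K * (K + 2) * c ^ 2 * t ^ 2 := by
    calc ‖H‖ ^ 2 + 2 * S ≤ (c * (K * t)) ^ 2 + 2 * (K * (c * t) ^ 2) := htr
      _ = _ := by ring
  nlinarith [hfin, hfin2, hla2, hsq, htr2]

end Pool.Agent.KS6_56.KS
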