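import Mathlib

/-! Averages over sign vectors and the trace inequality for vector valued quadratic forms. -/

set_option autoImplicit false

namespace Pool.Agent.KS6_56.KS

/-- the average of a function over the sign vectors -/
noncomputable def avg : (k : ℕ) → ((Fin k → ℝ) → ℝ) → ℝ
  | 0, f => f Fin.elim0
  | k + 1, f => (avg k (fun s => f (Fin.cons 1 s)) + avg k (fun s => f (Fin.cons (-1) s))) / 2

theorem avg_add : ∀ (k : ℕ) (f g : (Fin k → ℝ) → ℝ),
    avg k (fun s => f s + g s) = avg k f + avg k g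
  | 0, f, g => rfl
  | k + 1, f, g => by
      simp only [avg]
      rw [avg_add k, avg_add k]
      ring

theorem avg_smul : ∀ (k : ℕ) (c : ℝ) (f : (Fin k → ℝ) → ℝ),
    avg k (fun s => c * f s) = c * avg k f
  | 0, c, f => rfl
  | k + 1, c, f => by
      simp only [avg]
      rw [avg_smul k, avg_smul k]
      ring

theorem avg_const : ∀ (k : ℕ) (c : ℝ), avg k (fun _ => c) = c
  | 0, c => rfl
  | k + 1, c => by
      simp only [avg]
      rw [avg_const k]
      ring

theorem avg_le : ∀ (k : ℕ) (f : (Fin k → ℝ) → ℝ) (C : ℝ),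
    (∀ s : Fin k → ℝ, (∀ i, s i ^ 2 = 1) → f s ≤ C) → avg k f ≤ C
  | 0, f, C, h => h _ (fun i => i.elim0)
  | k + 1, f, C, h => by
      simp only [avg]
      have h1 := avg_le k (fun s => f (Fin.cons 1 s)) C (fun s hs => h _ (fun i => by
        refine Fin.cases ?_ ?_ i
        · simp
        · intro j; simpa using hs j))
      have h2 := avg_le k (fun s => f (Fin.cons (-1) s)) C (fun s hs => h _ (fun i => by
        refine Fin.cases ?_ ?_ i
        · simp
        · intro j; simpa using hs j))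
      linarith

variable {V : Type*} [NormedAddCommGroup V] [InnerProductSpace ℝ V]

theorem par (x y : V) : (‖x + y‖ ^ 2 + ‖x - y‖ ^ 2) / 2 = ‖x‖ ^ 2 + ‖y‖ ^ 2 := by
  have h := parallelogram_law_with_norm ℝ x y
  linarith

theorem avg_linear : ∀ (k : ℕ) (v : V) (w : Fin k → V),
    avg k (fun s => ‖v + ∑ i, s i • w i‖ ^ 2) = ‖v‖ ^ 2 + ∑ i, ‖w i‖ ^ 2
  | 0, v, w => by simp [avg]
  | k + 1, v, w => by
      simp only [avg, Fin.sum_univ_succ, Fin.cons_zero, Fin.cons_succ, one_smul, neg_smul]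
      have h1 := avg_linear k (v + w 0) (fun i => w i.succ)
      have h2 := avg_linear k (v - w 0) (fun i => w i.succ)
      have e1 : (fun s : Fin k → ℝ => ‖v + (w 0 + ∑ i, s i • w i.succ)‖ ^ 2) =
          fun s => ‖v + w 0 + ∑ i, s i • w i.succ‖ ^ 2 := by
        funext s; congr 2; abel
      have e2 : (fun s : Fin k → ℝ => ‖v + (-w 0 + ∑ i, s i • w i.succ)‖ ^ 2) =
          fun s => ‖v - w 0 + ∑ i, s i • w i.succ‖ ^ 2 := by
        funext s; congr 2; abel
      rw [e1, e2, h1, h2]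
      have := par v (w 0)
      linarith

/-- the quadratic form of a matrix of vectors -/
def qf {k : ℕ} (A : Fin k → Fin k → V) (s : Fin k → ℝ) : V := ∑ i, ∑ j, (s i * s j) • A i j

theorem qf_succ {k : ℕ} (A : Fin (k + 1) → Fin (k + 1) → V) (hA : ∀ i j, A i j = A j i)
    (e : ℝ) (he : e ^ 2 = 1) (s : Fin k → ℝ) :
    qf A (Fin.cons e s) = A 0 0 + (2 * e) • (∑ j, s j • A 0 j.succ)
      + qf (fun i j => A i.succ j.succ) s := by
  unfold qf
  rw [Fin.sum_univ_succ]
  simp only [Fin.sum_univ_succ, Fin.cons_zero, Fin.cons_succ, Finset.sum_add_distrib]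
  have e1 : e * e = 1 := by nlinarith
  rw [e1, one_smul]
  have h1 : ∑ x : Fin k, (e * s x) • A 0 x.succ = e • ∑ j, s j • A 0 j.succ := by
    rw [Finset.smul_sum]
    refine Finset.sum_congr rfl fun x _ => ?_
    rw [smul_smul]
  have h2 : ∑ x : Fin k, (s x * e) • A x.succ 0 = e • ∑ j, s j • A 0 j.succ := by
    rw [Finset.smul_sum]
    refine Finset.sum_congr rfl fun x _ => ?_
    rw [smul_smul, hA x.succ 0, mul_comm]
  rw [h1, h2, two_mul, add_smul]
  abel

theorem avg_qf : ∀ (k : ℕ) (v : V) (A : Fin k → Fin k → V), (∀ i j, A i j = A j i) →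
    avg k (fun s => ‖v + qf A s‖ ^ 2) = ‖v + ∑ i, A i i‖ ^ 2
      + 2 * (∑ i, ∑ j, ‖A i j‖ ^ 2 - ∑ i, ‖A i i‖ ^ 2)
  | 0, v, A, _ => by simp [avg, qf]
  | k + 1, v, A, hA => by
      have ih := avg_qf k (v + A 0 0) (fun i j => A i.succ j.succ) (fun i j => hA _ _)
      have hl := avg_linear k (0 : V) (fun j => A 0 j.succ)
      have e1 : ∀ s : Fin k → ℝ, (‖v + qf A (Fin.cons 1 s)‖ ^ 2 +
          ‖v + qf A (Fin.cons (-1) s)‖ ^ 2) / 2 =
          ‖v + A 0 0 + qf (fun i j => A i.succ j.succ) s‖ ^ 2 +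
            4 * ‖(0 : V) + ∑ j, s j • A 0 j.succ‖ ^ 2 := by
        intro s
        rw [qf_succ A hA 1 (by norm_num), qf_succ A hA (-1) (by norm_num)]
        have h := par (v + A 0 0 + qf (fun i j => A i.succ j.succ) s)
          ((2 : ℝ) • ∑ j, s j • A 0 j.succ)
        rw [norm_smul, Real.norm_eq_abs, abs_two, mul_pow] at h
        rw [zero_add]
        have e2 : v + (A 0 0 + (2 * (1 : ℝ)) • (∑ j, s j • A 0 j.succ)
            + qf (fun i j => A i.succ j.succ) s) =
            (v + A 0 0 + qf (fun i j => A i.succ j.succ) s) +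
              (2 : ℝ) • ∑ j, s j • A 0 j.succ := by
          rw [mul_one]; abel
        have e3 : v + (A 0 0 + (2 * (-1 : ℝ)) • (∑ j, s j • A 0 j.succ)
            + qf (fun i j => A i.succ j.succ) s) =
            (v + A 0 0 + qf (fun i j => A i.succ j.succ) s) -
              (2 : ℝ) • ∑ j, s j • A 0 j.succ := by
          rw [mul_neg, mul_one, neg_smul]; abel
        rw [e2, e3, h]
        norm_num
      have e4 : avg (k + 1) (fun s => ‖v + qf A s‖ ^ 2) =
          avg k (fun s => (‖v + qf A (Fin.cons 1 s)‖ ^ 2 +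
          ‖v + qf A (Fin.cons (-1) s)‖ ^ 2) / 2) := by
        have h3 : (fun s : Fin k → ℝ => (‖v + qf A (Fin.cons 1 s)‖ ^ 2 +
          ‖v + qf A (Fin.cons (-1) s)‖ ^ 2) / 2) = fun s => (1 / 2 : ℝ) *
            (‖v + qf A (Fin.cons 1 s)‖ ^ 2 + ‖v + qf A (Fin.cons (-1) s)‖ ^ 2) := by
          funext s; ring
        rw [h3, avg_smul, avg_add]
        simp only [avg]
        ring
      rw [e4, funext e1, avg_add, avg_smul, ih, hl]
      simp only [Fin.sum_univ_succ, Finset.sum_add_distrib]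
      have e5 : ∑ x : Fin k, ‖A x.succ 0‖ ^ 2 = ∑ x : Fin k, ‖A 0 x.succ‖ ^ 2 :=
        Finset.sum_congr rfl fun x _ => by rw [hA]
      rw [e5]
      have e6 : v + (A 0 0 + ∑ i : Fin k, A i.succ i.succ) =
          v + A 0 0 + ∑ i : Fin k, A i.succ i.succ := by abel
      rw [e6]
      simp
      ring

/-- **trace inequality**: if `|A(u, u)| ≤ C` for all sign vectors `u` and `|A_ii| ≤ D`, then
`|H|² + 2 |A|² ≤ C² + 2 k D²`. -/
theorem trace_ineq {k : ℕ} (A : Fin k → Fin k → V) (hA : ∀ i j, A i j = A j i) {C D : ℝ}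
    (h1 : ∀ s : Fin k → ℝ, (∀ i, s i ^ 2 = 1) → ‖qf A s‖ ^ 2 ≤ C) (h2 : ∀ i, ‖A i i‖ ^ 2 ≤ D) :
    ‖∑ i, A i i‖ ^ 2 + 2 * ∑ i, ∑ j, ‖A i j‖ ^ 2 ≤ C + 2 * (k * D) := by
  have h3 := avg_qf k 0 A hA
  have h4 : avg k (fun s => ‖(0 : V) + qf A s‖ ^ 2) ≤ C :=
    avg_le k _ C (fun s hs => by rw [zero_add]; exact h1 s hs)
  have h5 : ∑ i, ‖A i i‖ ^ 2 ≤ k * D := by
    calc ∑ i, ‖A i i‖ ^ 2 ≤ ∑ _i : Fin k, D := Finset.sum_le_sum fun i _ => h2 i
      _ = k * D := by simp
  rw [h3, zero_add] at h4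
  linarith

end Pool.Agent.KS6_56.KS
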