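import Pool.Agent.KS6_56.KS.Proj

/-! The Levi-Civita connection and the curvature of the metric
`exp(-α |F|²) ⟨dF u, dF v⟩` of an immersed piece `F`. -/

set_option autoImplicit false

open scoped Manifold ContDiff Topology ENNReal
open Function Module

namespace Pool.Agent.KS6_56.KS

variable {n N : ℕ}

/-- first derivative -/
noncomputable def DD (F : Euc n → Euc N) (y : Euc n) : Euc n →L[ℝ] Euc N := fderiv ℝ F y

/-- second derivative -/
noncomputable def HH (F : Euc n → Euc N) (y : Euc n) : Euc n →L[ℝ] (Euc n →L[ℝ] Euc N) :=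
  fderiv ℝ (DD F) y

/-- third derivative -/
noncomputable def TT (F : Euc n → Euc N) (y : Euc n) :
    Euc n →L[ℝ] (Euc n →L[ℝ] (Euc n →L[ℝ] Euc N)) :=
  fderiv ℝ (HH F) y

/-- an immersed piece -/
structure Piece (F : Euc n → Euc N) (U : Set (Euc n)) : Prop where
  isOpen : IsOpen U
  smooth : ContDiffOn ℝ ∞ F U
  inj : ∀ y ∈ U, Injective (DD F y)

variable {F : Euc n → Euc N} {U : Set (Euc n)}

theorem Piece.smoothD (h : Piece F U) : ContDiffOn ℝ ∞ (DD F) U :=
  h.smooth.fderiv_of_isOpen h.isOpen (by simp)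

theorem Piece.smoothH (h : Piece F U) : ContDiffOn ℝ ∞ (HH F) U :=
  h.smoothD.fderiv_of_isOpen h.isOpen (by simp)

theorem Piece.diffF (h : Piece F U) {y : Euc n} (hy : y ∈ U) : HasFDerivAt F (DD F y) y :=
  ((h.smooth.contDiffAt (h.isOpen.mem_nhds hy)).differentiableAt (by simp)).hasFDerivAt

theorem Piece.diffD (h : Piece F U) {y : Euc n} (hy : y ∈ U) : HasFDerivAt (DD F) (HH F y) y :=
  ((h.smoothD.contDiffAt (h.isOpen.mem_nhds hy)).differentiableAt (by simp)).hasFDerivAt

theorem Piece.diffH (h : Piece F U) {y : Euc n} (hy : y ∈ U) : HasFDerivAt (HH F) (TT F y) y :=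
  ((h.smoothH.contDiffAt (h.isOpen.mem_nhds hy)).differentiableAt (by simp)).hasFDerivAt

theorem Piece.symmH (h : Piece F U) {y : Euc n} (hy : y ∈ U) (u v : Euc n) :
    HH F y u v = HH F y v u :=
  (h.smooth.contDiffAt (h.isOpen.mem_nhds hy)).isSymmSndFDerivAt
    (by rw [minSmoothness_of_isRCLikeNormedField]; exact WithTop.coe_le_coe.mpr le_top) u v

theorem Piece.symmT (h : Piece F U) {y : Euc n} (hy : y ∈ U) (u v : Euc n) :
    TT F y u v = TT F y v u :=
  (h.smoothD.contDiffAt (h.isOpen.mem_nhds hy)).isSymmSndFDerivAt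
    (by rw [minSmoothness_of_isRCLikeNormedField]; exact WithTop.coe_le_coe.mpr le_top) u v

/-- the Levi-Civita connection of `exp(-α |F|²) ⟨dF u, dF v⟩` -/
noncomputable def Gam (α : ℝ) (F : Euc n → Euc N) (y u v : Euc n) : Euc n :=
  Qop (DD F y) (HH F y u v + (α * inner ℝ (DD F y u) (DD F y v)) • F y)
    - (α * inner ℝ (F y) (DD F y u)) • v - (α * inner ℝ (F y) (DD F y v)) • u

/-- the metric -/
noncomputable def Gm (α : ℝ) (F : Euc n → Euc N) (y u v : Euc n) : ℝ :=
  Real.exp (-α * inner ℝ (F y) (F y)) * inner ℝ (DD F y u) (DD F y v)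

/-- Christoffel symbols of the first kind, up to the conformal factor -/
noncomputable def lam (α : ℝ) (F : Euc n → Euc N) (y v w z : Euc n) : ℝ :=
  inner ℝ (HH F y v w) (DD F y z) + α * inner ℝ (DD F y v) (DD F y w) * inner ℝ (F y) (DD F y z)
    - α * inner ℝ (F y) (DD F y v) * inner ℝ (DD F y w) (DD F y z)
    - α * inner ℝ (F y) (DD F y w) * inner ℝ (DD F y v) (DD F y z)

theorem smoothGam (h : Piece F U) (α : ℝ) (u v : Euc n) :
    ContDiffOn ℝ ∞ (fun y => Gam α F y u v) U := by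
  have h1 := contDiffOn_Qop h.isOpen h.smooth h.inj
  have hD := h.smoothD
  have hH := h.smoothH
  have hDu : ∀ u, ContDiffOn ℝ ∞ (fun y => DD F y u) U := fun u => hD.clm_apply contDiffOn_const
  have hHu : ContDiffOn ℝ ∞ (fun y => HH F y u v) U :=
    (hH.clm_apply contDiffOn_const).clm_apply contDiffOn_const
  unfold Gam
  refine ((h1.clm_apply (hHu.add ((contDiffOn_const.mul ((hDu u).inner ℝ (hDu v))).smul
    h.smooth))).sub ((contDiffOn_const.mul (h.smooth.inner ℝ (hDu u))).smul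
    contDiffOn_const)).sub ((contDiffOn_const.mul (h.smooth.inner ℝ (hDu v))).smul
    contDiffOn_const)

theorem inner_Gam (h : Piece F U) (α : ℝ) {y : Euc n} (hy : y ∈ U) (v w z : Euc n) :
    inner ℝ (DD F y (Gam α F y v w)) (DD F y z) = lam α F y v w z := by
  unfold Gam lam
  simp only [map_sub, map_smul, inner_sub_left, inner_smul_left, Qop_spec (h.inj y hy),
    inner_add_left, RCLike.conj_to_real]

/-- the derivative of `lam` -/
noncomputable def dlam (α : ℝ) (F : Euc n → Euc N) (y u v w z : Euc n) : ℝ :=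
  (inner ℝ (TT F y u v w) (DD F y z) + inner ℝ (HH F y v w) (HH F y u z))
  + α * (inner ℝ (HH F y u v) (DD F y w) + inner ℝ (DD F y v) (HH F y u w))
    * inner ℝ (F y) (DD F y z)
  + α * inner ℝ (DD F y v) (DD F y w)
    * (inner ℝ (DD F y u) (DD F y z) + inner ℝ (F y) (HH F y u z))
  - α * (inner ℝ (DD F y u) (DD F y v) + inner ℝ (F y) (HH F y u v))
    * inner ℝ (DD F y w) (DD F y z)
  - α * inner ℝ (F y) (DD F y v)
    * (inner ℝ (HH F y u w) (DD F y z) + inner ℝ (DD F y w) (HH F y u z))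
  - α * (inner ℝ (DD F y u) (DD F y w) + inner ℝ (F y) (HH F y u w))
    * inner ℝ (DD F y v) (DD F y z)
  - α * inner ℝ (F y) (DD F y w)
    * (inner ℝ (HH F y u v) (DD F y z) + inner ℝ (DD F y v) (HH F y u z))

section lines

theorem line {V : Type*} [NormedAddCommGroup V] [NormedSpace ℝ V] {f : Euc n → V}
    {L : Euc n →L[ℝ] V} {y : Euc n} (hf : HasFDerivAt f L y) (u : Euc n) :
    HasDerivAt (fun t : ℝ => f (y + t • u)) (L u) 0 :=
  hf.hasLineDerivAt u

theorem Piece.lF (h : Piece F U) {y : Euc n} (hy : y ∈ U) (u : Euc n) :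
    HasDerivAt (fun t : ℝ => F (y + t • u)) (DD F y u) 0 := line (h.diffF hy) u

theorem Piece.lD (h : Piece F U) {y : Euc n} (hy : y ∈ U) (u v : Euc n) :
    HasDerivAt (fun t : ℝ => DD F (y + t • u) v) (HH F y u v) 0 := by
  have h1 := ((ContinuousLinearMap.apply ℝ (Euc N) v).hasFDerivAt (x := DD F y)).comp y
    (h.diffD hy)
  exact line h1 u

theorem Piece.lH (h : Piece F U) {y : Euc n} (hy : y ∈ U) (u v w : Euc n) :
    HasDerivAt (fun t : ℝ => HH F (y + t • u) v w) (TT F y u v w) 0 := by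
  have h1 : HasFDerivAt (fun z => HH F z v)
      ((ContinuousLinearMap.apply ℝ (Euc n →L[ℝ] Euc N) v).comp (TT F y)) y :=
    HasFDerivAt.comp (g := ContinuousLinearMap.apply ℝ (Euc n →L[ℝ] Euc N) v) y
      (ContinuousLinearMap.hasFDerivAt _) (h.diffH hy)
  have h2 : HasFDerivAt (fun z => HH F z v w)
      ((ContinuousLinearMap.apply ℝ (Euc N) w).comp
        ((ContinuousLinearMap.apply ℝ (Euc n →L[ℝ] Euc N) v).comp (TT F y))) y :=
    HasFDerivAt.comp (g := ContinuousLinearMap.apply ℝ (Euc N) w) y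
      (ContinuousLinearMap.hasFDerivAt _) h1
  exact line h2 u

theorem lin {f g : ℝ → Euc N} {f' g' a b : Euc N} (hf : HasDerivAt f f' 0)
    (hg : HasDerivAt g g' 0) (ha : f 0 = a) (hb : g 0 = b) :
    HasDerivAt (fun t => inner ℝ (f t) (g t)) (inner ℝ f' b + inner ℝ a g') 0 := by
  have h := hf.inner ℝ hg
  rw [ha, hb, add_comm] at h
  exact h

theorem Piece.llam (h : Piece F U) (α : ℝ) {y : Euc n} (hy : y ∈ U) (u v w z : Euc n) :
    HasDerivAt (fun t : ℝ => lam α F (y + t • u) v w z) (dlam α F y u v w z) 0 := by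
  have e0 : y + (0 : ℝ) • u = y := by simp
  have hF := h.lF hy u
  have hD := h.lD hy u
  have hH := h.lH hy u
  have i1 := lin (hH v w) (hD z) (by rw [e0]) (by rw [e0])
  have i2 := lin (hD v) (hD w) (by rw [e0]) (by rw [e0])
  have i3 := lin hF (hD z) (by rw [e0]) (by rw [e0])
  have i4 := lin hF (hD v) (by rw [e0]) (by rw [e0])
  have i5 := lin (hD w) (hD z) (by rw [e0]) (by rw [e0])
  have i6 := lin hF (hD w) (by rw [e0]) (by rw [e0])
  have i7 := lin (hD v) (hD z) (by rw [e0]) (by rw [e0])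
  unfold lam
  refine ((((i1.add ((i2.const_mul α).mul i3)).sub ((i4.const_mul α).mul i5)).sub
    ((i6.const_mul α).mul i7))).congr_deriv ?_
  simp only [e0]
  unfold dlam
  ring

end lines

end Pool.Agent.KS6_56.KS
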