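import Pool.Agent.KS6_56.KS.Max

/-! Global part: from the manifold to the charts. -/

set_option autoImplicit false

open scoped Manifold ContDiff Topology ENNReal
open Function Module

namespace Pool.Agent.KS6_56.KS

variable {n : ℕ} {X : Type*} [TopologicalSpace X] [ChartedSpace (Euc n) X] {N : ℕ} {f : X → Euc N}
  {e : OpenPartialHomeomorph X (Euc n)}

/-- the derivative of the map -/
noncomputable def df (f : X → Euc N) (x : X) : Euc n →L[ℝ] Euc N :=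
  mfderiv 𝓘(ℝ, Euc n) 𝓘(ℝ, Euc N) f x

/-- the derivative of the inverse chart -/
noncomputable def ds (e : OpenPartialHomeomorph X (Euc n)) (y : Euc n) : Euc n →L[ℝ] Euc n :=
  mfderiv 𝓘(ℝ, Euc n) 𝓘(ℝ, Euc n) e.symm y

theorem mdiff_symm [IsManifold 𝓘(ℝ, Euc n) ∞ X]
    (he : e ∈ IsManifold.maximalAtlas 𝓘(ℝ, Euc n) ∞ X) {y : Euc n} (hy : y ∈ e.target) :
    MDifferentiableAt 𝓘(ℝ, Euc n) 𝓘(ℝ, Euc n) e.symm y :=
  ((contMDiffOn_symm_of_mem_maximalAtlas he).contMDiffAt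
    (e.open_target.mem_nhds hy)).mdifferentiableAt (by simp)

theorem mdiff_chart [IsManifold 𝓘(ℝ, Euc n) ∞ X]
    (he : e ∈ IsManifold.maximalAtlas 𝓘(ℝ, Euc n) ∞ X) {x : X} (hx : x ∈ e.source) :
    MDifferentiableAt 𝓘(ℝ, Euc n) 𝓘(ℝ, Euc n) e x :=
  ((contMDiffOn_of_mem_maximalAtlas he).contMDiffAt
    (e.open_source.mem_nhds hx)).mdifferentiableAt (by simp)

theorem ds_injective [IsManifold 𝓘(ℝ, Euc n) ∞ X]
    (he : e ∈ IsManifold.maximalAtlas 𝓘(ℝ, Euc n) ∞ X) {y : Euc n} (hy : y ∈ e.target) :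
    Injective (ds e y) := by
  have h1 := mdiff_symm he hy
  have h2 : MDifferentiableAt 𝓘(ℝ, Euc n) 𝓘(ℝ, Euc n) e (e.symm y) :=
    mdiff_chart he (e.map_target hy)
  have h3 : mfderiv 𝓘(ℝ, Euc n) 𝓘(ℝ, Euc n) (e ∘ e.symm) y =
      (mfderiv 𝓘(ℝ, Euc n) 𝓘(ℝ, Euc n) e (e.symm y)).comp
        (mfderiv 𝓘(ℝ, Euc n) 𝓘(ℝ, Euc n) e.symm y) := mfderiv_comp y h2 h1
  have h4 : (e ∘ e.symm) =ᶠ[𝓝 y] id := by
    filter_upwards [e.open_target.mem_nhds hy] with z hz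
    exact e.right_inv hz
  have h5 : mfderiv 𝓘(ℝ, Euc n) 𝓘(ℝ, Euc n) (e ∘ e.symm) y =
      mfderiv 𝓘(ℝ, Euc n) 𝓘(ℝ, Euc n) (id : Euc n → Euc n) y := h4.mfderiv_eq
  have h6 : mfderiv 𝓘(ℝ, Euc n) 𝓘(ℝ, Euc n) (id : Euc n → Euc n) y =
      ContinuousLinearMap.id ℝ (Euc n) := mfderiv_id
  rw [h3, h6] at h5
  intro u v huv
  have hu := congrArg (fun L : Euc n →L[ℝ] Euc n => L u) h5
  have hv := congrArg (fun L : Euc n →L[ℝ] Euc n => L v) h5
  have hu' : (mfderiv 𝓘(ℝ, Euc n) 𝓘(ℝ, Euc n) e (e.symm y)) (ds e y u) = u := hu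
  have hv' : (mfderiv 𝓘(ℝ, Euc n) 𝓘(ℝ, Euc n) e (e.symm y)) (ds e y v) = v := hv
  rw [← hu', ← hv', huv]

theorem DD_chart [IsManifold 𝓘(ℝ, Euc n) ∞ X] (hf : IsImmersionInBall (Euc n) f)
    (he : e ∈ IsManifold.maximalAtlas 𝓘(ℝ, Euc n) ∞ X) {y : Euc n} (hy : y ∈ e.target) :
    DD (f ∘ e.symm) y = (df f (e.symm y)).comp (ds e y) := by
  have h1 := mdiff_symm he hy
  have h2 : MDifferentiableAt 𝓘(ℝ, Euc n) 𝓘(ℝ, Euc N) f (e.symm y) :=
    (hf.smooth _).mdifferentiableAt (by simp)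
  have h3 : mfderiv 𝓘(ℝ, Euc n) 𝓘(ℝ, Euc N) (f ∘ e.symm) y =
      (mfderiv 𝓘(ℝ, Euc n) 𝓘(ℝ, Euc N) f (e.symm y)).comp
        (mfderiv 𝓘(ℝ, Euc n) 𝓘(ℝ, Euc n) e.symm y) := mfderiv_comp y h2 h1
  unfold DD
  rw [← mfderiv_eq_fderiv]
  exact h3

theorem piece_chart [IsManifold 𝓘(ℝ, Euc n) ∞ X] (hf : IsImmersionInBall (Euc n) f)
    (he : e ∈ IsManifold.maximalAtlas 𝓘(ℝ, Euc n) ∞ X) : Piece (f ∘ e.symm) e.target where
  isOpen := e.open_target
  smooth := by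
    have h1 : ContMDiffOn 𝓘(ℝ, Euc n) 𝓘(ℝ, Euc N) ∞ (f ∘ e.symm) e.target :=
      hf.smooth.comp_contMDiffOn (contMDiffOn_symm_of_mem_maximalAtlas he)
    exact contMDiffOn_iff_contDiffOn.1 h1
  inj := by
    intro y hy
    rw [DD_chart hf he hy]
    exact (hf.immersion _).comp (ds_injective he hy)

theorem inChart_induced (α : ℝ) [IsManifold 𝓘(ℝ, Euc n) ∞ X] (hf : IsImmersionInBall (Euc n) f)
    (he : e ∈ IsManifold.maximalAtlas 𝓘(ℝ, Euc n) ∞ X) {y : Euc n} (hy : y ∈ e.target)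
    (u v : Euc n) :
    inChart (conformal (fun x => -(α / 2) * inner ℝ (f x) (f x)) (inducedMetric (E := Euc n) f)) e y u v =
      Gm α (f ∘ e.symm) y u v := by
  unfold Gm
  rw [DD_chart hf he hy]
  have h1 : inChart (conformal (fun x => -(α / 2) * inner ℝ (f x) (f x)) (inducedMetric (E := Euc n) f)) e y u v
      = Real.exp (2 * (-(α / 2) * inner ℝ (f (e.symm y)) (f (e.symm y)))) *
        inner ℝ ((df f (e.symm y)).comp (ds e y) u) ((df f (e.symm y)).comp (ds e y) v) := rfl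
  rw [h1]
  congr 2
  simp only [Function.comp_apply]
  ring

theorem proj_congr {K K' : Submodule ℝ (Euc N)} (h : K = K') (x : Euc N) :
    Kᗮ.starProjection x = K'ᗮ.starProjection x := by
  subst h; rfl

theorem nrm_chart [IsManifold 𝓘(ℝ, Euc n) ∞ X] (hf : IsImmersionInBall (Euc n) f)
    (he : e ∈ IsManifold.maximalAtlas 𝓘(ℝ, Euc n) ∞ X) {y : Euc n} (hy : y ∈ e.target)
    (x : Euc N) : nrm (DD (f ∘ e.symm) y) x = nrm (df f (e.symm y) : Euc n →L[ℝ] Euc N) x := by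
  have hi1 : Injective (DD (f ∘ e.symm) y) := (piece_chart hf he).inj y hy
  have hi2 : Injective (df f (e.symm y)) := hf.immersion _
  rw [nrm_eq hi1, nrm_eq hi2]
  have hr : (DD (f ∘ e.symm) y).range = (df f (e.symm y) : Euc n →L[ℝ] Euc N).range := by
    rw [DD_chart hf he hy]
    have hs : Surjective (ds e y) :=
      (LinearMap.injective_iff_surjective (f := (ds e y : Euc n →ₗ[ℝ] Euc n))).1
        (ds_injective he hy)
    ext w
    constructor
    · rintro ⟨u, rfl⟩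
      exact ⟨ds e y u, rfl⟩
    · rintro ⟨u, rfl⟩
      obtain ⟨u', rfl⟩ := hs u
      exact ⟨u', rfl⟩
  exact proj_congr hr x

theorem bound_chart [IsManifold 𝓘(ℝ, Euc n) ∞ X] (hf : IsImmersionInBall (Euc n) f) {c : ℝ}
    (hc0 : 0 ≤ c) (hc : normalCurvature (Euc n) f ≤ ENNReal.ofReal c)
    (he : e ∈ IsManifold.maximalAtlas 𝓘(ℝ, Euc n) ∞ X) {y : Euc n} (hy : y ∈ e.target)
    (u : Euc n) :
    ‖nrm (DD (f ∘ e.symm) y) (HH (f ∘ e.symm) y u u)‖ ≤ c * ‖DD (f ∘ e.symm) y u‖ ^ 2 := by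
  have hi1 : Injective (DD (f ∘ e.symm) y) := (piece_chart hf he).inj y hy
  have hunit : ∀ w : Euc n, ‖DD (f ∘ e.symm) y w‖ = 1 →
      ‖nrm (DD (f ∘ e.symm) y) (HH (f ∘ e.symm) y w w)‖ ≤ c := by
    intro w hw
    have h1 : ‖secondFund f e y w w‖ₑ ≤ ENNReal.ofReal c := by
      refine le_trans ?_ hc
      unfold normalCurvature
      exact le_iSup₂_of_le e he (le_iSup₂_of_le y hy (le_iSup₂_of_le w hw le_rfl))
    have h2 : secondFund f e y w w = nrm (DD (f ∘ e.symm) y) (HH (f ∘ e.symm) y w w) :=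
      (nrm_eq hi1 _).symm
    rw [h2, ← ofReal_norm, ENNReal.ofReal_le_ofReal_iff hc0] at h1
    exact h1
  by_cases hu : DD (f ∘ e.symm) y u = 0
  · have h0 : u = 0 := (injective_iff_map_eq_zero _).1 hi1 u hu
    rw [h0]
    simp [nrm]
  · have hpos : 0 < ‖DD (f ∘ e.symm) y u‖ := norm_pos_iff.2 hu
    set r := ‖DD (f ∘ e.symm) y u‖ with hr
    have h1 := hunit (r⁻¹ • u) (by
      rw [map_smul, norm_smul, ← hr, norm_inv, Real.norm_eq_abs, abs_of_pos hpos]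
      exact inv_mul_cancel₀ hpos.ne')
    simp only [map_smul, smul_apply, nrm_smul, norm_smul, norm_inv, Real.norm_eq_abs,
      abs_of_pos hpos] at h1
    have h2 := mul_le_mul_of_nonneg_right h1 (sq_nonneg r)
    have h3 : r⁻¹ * (r⁻¹ * ‖nrm (DD (f ∘ e.symm) y) (HH (f ∘ e.symm) y u u)‖) * r ^ 2 =
        ‖nrm (DD (f ∘ e.symm) y) (HH (f ∘ e.symm) y u u)‖ := by
      field_simp
    rw [h3] at h2
    exact h2

/-- the function of the maximum principle -/
noncomputable def PhiX (β : ℝ) (f : X → Euc N) (x : X) : ℝ := Phi β (df f x : Euc n →L[ℝ] Euc N) (f x)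

theorem PhiX_chart (β : ℝ) [IsManifold 𝓘(ℝ, Euc n) ∞ X] (hf : IsImmersionInBall (Euc n) f)
    (he : e ∈ IsManifold.maximalAtlas 𝓘(ℝ, Euc n) ∞ X) {y : Euc n} (hy : y ∈ e.target) :
    PhiX (n := n) β f (e.symm y) = Phi β (DD (f ∘ e.symm) y) ((f ∘ e.symm) y) := by
  unfold PhiX Phi
  rw [nrm_chart hf he hy]
  rfl

theorem continuousOn_Phi (β : ℝ) {F : Euc n → Euc N} {U : Set (Euc n)} (h : Piece F U) :
    ContinuousOn (fun y => Phi β (DD F y) (F y)) U := by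
  have h1 : ContinuousOn (fun y => Qop (DD F y)) U :=
    (contDiffOn_Qop h.isOpen h.smooth h.inj).continuousOn
  have h2 : ContinuousOn F U := h.smooth.continuousOn
  have h3 : ContinuousOn (DD F) U := h.smoothD.continuousOn
  unfold Phi nrm
  exact ((h2.norm.pow 2).sub ((h2.sub (h3.clm_apply (h1.clm_apply h2))).norm.pow 2)).add
    (continuousOn_const.mul (h2.norm.pow 2))

theorem continuous_PhiX (β : ℝ) [IsManifold 𝓘(ℝ, Euc n) ∞ X] (hf : IsImmersionInBall (Euc n) f) :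
    Continuous (PhiX (n := n) β f) := by
  rw [continuous_iff_continuousAt]
  intro x
  have he : chartAt (Euc n) x ∈ IsManifold.maximalAtlas 𝓘(ℝ, Euc n) ∞ X :=
    IsManifold.chart_mem_maximalAtlas x
  set e := chartAt (Euc n) x with hedef
  have hx : x ∈ e.source := mem_chart_source (Euc n) x
  have h1 := continuousOn_Phi β (piece_chart hf he)
  have h2 : ContinuousAt (fun y => Phi β (DD (f ∘ e.symm) y) ((f ∘ e.symm) y)) (e x) :=
    h1.continuousAt (e.open_target.mem_nhds (e.map_source hx))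
  have h3 : ContinuousAt ((fun y => Phi β (DD (f ∘ e.symm) y) ((f ∘ e.symm) y)) ∘ e) x :=
    ContinuousAt.comp h2 (e.continuousAt hx)
  refine h3.congr ?_
  filter_upwards [e.open_source.mem_nhds hx] with z hz
  have h4 := PhiX_chart β hf he (e.map_source hz)
  rw [e.left_inv hz] at h4
  exact h4.symm

theorem PhiX_le {β : ℝ} (hβ : 0 ≤ β) [IsManifold 𝓘(ℝ, Euc n) ∞ X] [CompactSpace X]
    (hf : IsImmersionInBall (Euc n) f) {c : ℝ}
    (hc0 : 0 ≤ c) (hc1 : c < 1 + β) (hc : normalCurvature (Euc n) f ≤ ENNReal.ofReal c) (x : X) :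
    PhiX (n := n) β f x ≤ β := by
  obtain ⟨x0, -, hx0⟩ := isCompact_univ.exists_isMaxOn ⟨x, Set.mem_univ x⟩
    (continuous_PhiX β hf).continuousOn
  have hmax : ∀ z, PhiX (n := n) β f z ≤ PhiX (n := n) β f x0 := fun z => hx0 (Set.mem_univ z)
  refine (hmax x).trans ?_
  have he : chartAt (Euc n) x0 ∈ IsManifold.maximalAtlas 𝓘(ℝ, Euc n) ∞ X :=
    IsManifold.chart_mem_maximalAtlas x0
  set e := chartAt (Euc n) x0 with hedef
  have hx : x0 ∈ e.source := mem_chart_source (Euc n) x0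
  have hy : e x0 ∈ e.target := e.map_source hx
  have h0 : PhiX (n := n) β f x0 = Phi β (DD (f ∘ e.symm) (e x0)) ((f ∘ e.symm) (e x0)) := by
    rw [← PhiX_chart β hf he hy, e.left_inv hx]
  rw [h0]
  refine max_local (piece_chart hf he) hy hβ (bound_chart hf hc0 hc he hy) hc1 (hf.norm_le _) ?_
  filter_upwards [e.open_target.mem_nhds hy] with z hz
  rw [← PhiX_chart β hf he hz, ← h0]
  exact hmax _

theorem smooth_psi (α : ℝ) (hf : IsImmersionInBall (Euc n) f) :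
    ContMDiff 𝓘(ℝ, Euc n) 𝓘(ℝ) ∞ (fun x => -(α / 2) * inner ℝ (f x) (f x) : X → ℝ) := by
  have h1 : ContDiff ℝ ∞ (fun v : Euc N => -(α / 2 : ℝ) * inner ℝ v v) :=
    contDiff_const.mul (contDiff_id.inner ℝ contDiff_id)
  exact h1.contMDiff.comp hf.smooth

theorem main {k : ℕ} (hk : 2 ≤ k) [IsManifold 𝓘(ℝ, Euc n) ∞ X] [CompactSpace X]
    (hf : IsImmersionInBall (Euc n) f)
    (hc : normalCurvature (Euc n) f < ENNReal.ofReal (√(3 * k / (k + 2)))) :
    ∃ ψ : X → ℝ, (∀ x, ψ x = -(3 * k / (4 * (k - 1))) * ‖f x‖ ^ 2) ∧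
      ContMDiff 𝓘(ℝ, Euc n) 𝓘(ℝ) ∞ ψ ∧
      PosScal k (conformal ψ (inducedMetric (E := Euc n) f)) ∧
      ConditionR k (conformal ψ (inducedMetric (E := Euc n) f)) := by
  have hk2 : (2 : ℝ) ≤ k := by exact_mod_cast hk
  have hm : (0 : ℝ) < k - 1 := by linarith
  have hfin : normalCurvature (Euc n) f ≠ ⊤ := hc.ne_top
  set c := (normalCurvature (Euc n) f).toReal with hcdef
  have hc0 : 0 ≤ c := ENNReal.toReal_nonneg
  have hcle : normalCurvature (Euc n) f ≤ ENNReal.ofReal c := by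
    rw [hcdef, ENNReal.ofReal_toReal hfin]
  have hclt : c < √(3 * k / (k + 2)) := by
    rw [hcdef]
    exact ENNReal.toReal_lt_of_lt_ofReal hc
  have hc2 : c ^ 2 < 3 * k / (k + 2) := by
    have h1 := pow_lt_pow_left₀ hclt hc0 (two_ne_zero)
    rwa [Real.sq_sqrt (by positivity)] at h1
  have hc3 : (k + 2) * c ^ 2 < 3 * k := by
    rw [lt_div_iff₀ (by linarith)] at hc2
    linarith
  set β : ℝ := 2 * (k - 1) / (k + 2) with hβdef
  have hβ : 0 ≤ β := by positivity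
  have hβ2 : 1 + β = 3 * k / (k + 2) := by
    rw [hβdef]
    field_simp
    ring
  have hβ3 : (k + 2) * β = 2 * (k - 1) := by
    rw [hβdef]
    field_simp
  have hc1 : c < 1 + β := by
    by_contra hcon
    push Not at hcon
    have h1 : (1 + β) ^ 2 ≤ c ^ 2 := pow_le_pow_left₀ (by linarith) hcon 2
    rw [← hβ2] at hc2
    nlinarith
  set α : ℝ := 3 * k / (2 * (k - 1)) with hα
  have hψ : ∀ x, -(α / 2) * inner ℝ (f x) (f x) = -(3 * k / (4 * (k - 1))) * ‖f x‖ ^ 2 := by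
    intro x
    rw [real_inner_self_eq_norm_sq, hα]
    congr 2
    field_simp
    norm_num
  have key : ∀ e ∈ IsManifold.maximalAtlas 𝓘(ℝ, Euc n) ∞ X,
      IsLeviCivita (inChart (conformal (fun x => -(α / 2) * inner ℝ (f x) (f x))
        (inducedMetric (E := Euc n) f)) e) (Gam α (f ∘ e.symm)) e.target ∧
      ∀ y ∈ e.target, ∀ b : Fin k → Euc n,
        IsFrame (inChart (conformal (fun x => -(α / 2) * inner ℝ (f x) (f x))
          (inducedMetric (E := Euc n) f)) e) y b →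
        0 < scal (inChart (conformal (fun x => -(α / 2) * inner ℝ (f x) (f x))
          (inducedMetric (E := Euc n) f)) e) (Gam α (f ∘ e.symm)) y b := by
    intro e he
    have hP := piece_chart hf he
    refine ⟨?_, ?_⟩
    · exact (leviCivita_Gm hP α).congr e.open_target
        (fun y hy u v => inChart_induced α hf he hy u v)
    · intro y hy b hb
      refine scal_local hP hy hk hα (bound_chart hf hc0 hcle he hy) hc3 ?_
        (fun u v => inChart_induced α hf he hy u v) hb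
      have h1 := PhiX_le hβ hf hc0 hc1 hcle (e.symm y)
      rw [PhiX_chart β hf he hy] at h1
      unfold Phi at h1
      have h2 : (k + 2) * (‖(f ∘ e.symm) y‖ ^ 2 - ‖nrm (DD (f ∘ e.symm) y) ((f ∘ e.symm) y)‖ ^ 2
          + β * ‖(f ∘ e.symm) y‖ ^ 2) ≤ (k + 2) * β :=
        mul_le_mul_of_nonneg_left h1 (by linarith)
      have h3 : (k + 2) * (‖(f ∘ e.symm) y‖ ^ 2 - ‖nrm (DD (f ∘ e.symm) y) ((f ∘ e.symm) y)‖ ^ 2
          + β * ‖(f ∘ e.symm) y‖ ^ 2) = (k + 2) * (‖(f ∘ e.symm) y‖ ^ 2 -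
          ‖nrm (DD (f ∘ e.symm) y) ((f ∘ e.symm) y)‖ ^ 2)
          + 2 * (k - 1) * ‖(f ∘ e.symm) y‖ ^ 2 := by rw [← hβ3]; ring
      rw [h3, hβ3] at h2
      linarith
  refine ⟨fun x => -(α / 2) * inner ℝ (f x) (f x), hψ, smooth_psi α hf, ?_, ?_⟩
  · intro e he
    exact ⟨_, (key e he).1, (key e he).2⟩
  · intro e he
    refine ⟨_, (key e he).1, fun y hy b hb => ?_⟩
    have h1 := scal_sub_ricci (piece_chart hf he) hy
      (fun u v => inChart_induced α hf he hy u v) hb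
    have h2 := (key e he).2 y hy (fun i : Fin k => b i.castSucc) (fun i j => by
      rw [hb]
      simp)
    linarith

end Pool.Agent.KS6_56.KS
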