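import Pool.Agent.KS6_56.KS.Curv2

/-! The connection `Gam` is the Levi-Civita connection, and the local form of condition (R). -/

set_option autoImplicit false

open scoped Manifold ContDiff Topology ENNReal
open Function Module

namespace Pool.Agent.KS6_56.KS

variable {n N : ℕ} {F : Euc n → Euc N} {U : Set (Euc n)}

theorem fderiv_Gm (h : Piece F U) (α : ℝ) {y : Euc n} (hy : y ∈ U) (u v w : Euc n) :
    fderiv ℝ (fun z => Gm α F z v w) y u =
      Real.exp (-α * inner ℝ (F y) (F y)) *
        (-2 * α * inner ℝ (F y) (DD F y u) * inner ℝ (DD F y v) (DD F y w)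
          + inner ℝ (HH F y u v) (DD F y w) + inner ℝ (DD F y v) (HH F y u w)) := by
  have hF : DifferentiableAt ℝ F y := (h.diffF hy).differentiableAt
  have hD : DifferentiableAt ℝ (DD F) y := (h.diffD hy).differentiableAt
  have hDv : ∀ v, DifferentiableAt ℝ (fun z => DD F z v) y := fun v =>
    hD.clm_apply (differentiableAt_const v)
  have hG : DifferentiableAt ℝ (fun z => Gm α F z v w) y := by
    unfold Gm
    exact (((hF.inner ℝ hF).const_mul (-α)).exp).mul ((hDv v).inner ℝ (hDv w))
  have h1 := line hG.hasFDerivAt u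
  refine h1.unique ?_
  have e0 : y + (0 : ℝ) • u = y := by simp
  have i1 := lin (h.lF hy u) (h.lF hy u) (by rw [e0]) (by rw [e0])
  have i2 := lin (h.lD hy u v) (h.lD hy u w) (by rw [e0]) (by rw [e0])
  unfold Gm
  refine (((i1.const_mul (-α)).exp).mul i2).congr_deriv ?_
  simp only [e0]
  rw [real_inner_comm (F y) (DD F y u)]
  ring

theorem leviCivita_Gm (h : Piece F U) (α : ℝ) : IsLeviCivita (Gm α F) (Gam α F) U := by
  refine ⟨fun u v => smoothGam h α u v, fun y hy u v w => ?_⟩
  rw [fderiv_Gm h α hy, fderiv_Gm h α hy, fderiv_Gm h α hy]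
  unfold Gm
  rw [inner_Gam h α hy]
  unfold lam
  rw [h.symmH hy v u, h.symmH hy w u, h.symmH hy w v,
    real_inner_comm (DD F y w) (HH F y u v),
    real_inner_comm (DD F y v) (HH F y u w)]
  ring

theorem IsLeviCivita.congr {G G' : Euc n → Euc n → Euc n → ℝ} {Γ : Euc n → Euc n → Euc n → Euc n}
    (hU : IsOpen U) (h : IsLeviCivita G Γ U) (he : ∀ y ∈ U, ∀ u v, G' y u v = G y u v) :
    IsLeviCivita G' Γ U := by
  refine ⟨h.1, fun y hy u v w => ?_⟩
  have h1 : ∀ v w, fderiv ℝ (fun z => G' z v w) y = fderiv ℝ (fun z => G z v w) y := by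
    intro v w
    apply Filter.EventuallyEq.fderiv_eq
    filter_upwards [hU.mem_nhds hy] with z hz
    exact he z hz v w
  rw [he y hy, h1, h1, h1]
  exact h.2 y hy u v w

end Pool.Agent.KS6_56.KS
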