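import Pool.Agent.KS6_56.KS.Kos
import Pool.Agent.KS6_56.KS.Alg

/-! The local form of the curvature conditions. -/

set_option autoImplicit false

open scoped Manifold ContDiff Topology ENNReal
open Function Module

namespace Pool.Agent.KS6_56.KS

variable {n N : ℕ} {F : Euc n → Euc N} {U : Set (Euc n)}

/-- `nrm` as a linear map -/
noncomputable def nrmL (A : Euc n →L[ℝ] Euc N) : Euc N →L[ℝ] Euc N :=
  ContinuousLinearMap.id ℝ (Euc N) - A.comp (Qop A)

theorem nrmL_apply (A : Euc n →L[ℝ] Euc N) (v : Euc N) : nrmL A v = nrm A v := rfl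

theorem nrm_add (A : Euc n →L[ℝ] Euc N) (v w : Euc N) : nrm A (v + w) = nrm A v + nrm A w := by
  rw [← nrmL_apply, map_add, nrmL_apply, nrmL_apply]

theorem nrm_smul (A : Euc n →L[ℝ] Euc N) (s : ℝ) (v : Euc N) : nrm A (s • v) = s • nrm A v := by
  rw [← nrmL_apply, map_smul, nrmL_apply]

/-- the second fundamental form on the vectors of a family -/
noncomputable def AA {k : ℕ} (F : Euc n → Euc N) (y : Euc n) (b : Fin k → Euc n)
    (i j : Fin k) : Euc N := nrm (DD F y) (HH F y (b i) (b j))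

theorem AA_symm {k : ℕ} (h : Piece F U) {y : Euc n} (hy : y ∈ U) (b : Fin k → Euc n)
    (i j : Fin k) : AA F y b i j = AA F y b j i := by
  unfold AA
  rw [h.symmH hy]

theorem qf_AA {k : ℕ} (y : Euc n) (b : Fin k → Euc n) (s : Fin k → ℝ) :
    qf (AA F y b) s = nrm (DD F y) (HH F y (∑ i, s i • b i) (∑ i, s i • b i)) := by
  unfold qf AA
  rw [← nrmL_apply]
  simp only [map_sum, map_smul, ContinuousLinearMap.sum_apply, ContinuousLinearMap.smul_apply,
    Finset.smul_sum, smul_smul]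
  simp only [nrmL_apply]
  rw [Finset.sum_comm]
  refine Finset.sum_congr rfl fun i _ => Finset.sum_congr rfl fun j _ => ?_
  rw [mul_comm]

theorem dir_bound {k : ℕ} {y : Euc n} {c t : ℝ}
    (hb : ∀ u, ‖nrm (DD F y) (HH F y u u)‖ ≤ c * ‖DD F y u‖ ^ 2) {b : Fin k → Euc n}
    (hfr : ∀ i j, inner ℝ (DD F y (b i)) (DD F y (b j)) = if i = j then t else 0)
    (s : Fin k → ℝ) (hs : ∀ i, s i ^ 2 = 1) :
    ‖qf (AA F y b) s‖ ^ 2 ≤ (c * (k * t)) ^ 2 := by
  rw [qf_AA]
  have h1 := hb (∑ i, s i • b i)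
  have h2 : ‖DD F y (∑ i, s i • b i)‖ ^ 2 = k * t := by
    rw [← real_inner_self_eq_norm_sq]
    simp only [map_sum, map_smul, sum_inner, inner_sum, inner_smul_left, inner_smul_right,
      RCLike.conj_to_real, hfr]
    simp only [mul_ite, mul_zero, Finset.sum_ite_eq, Finset.sum_ite_eq', Finset.mem_univ, if_true]
    have : ∀ i, s i * (s i * t) = t := fun i => by
      have := hs i
      linear_combination t * this
    simp [this]
  rw [h2] at h1
  exact pow_le_pow_left₀ (norm_nonneg _) h1 2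

/-- the curvature of a pair of frame vectors -/
theorem curv_pair {k : ℕ} (h : Piece F U) {y : Euc n} (hy : y ∈ U) {t : ℝ} {b : Fin k → Euc n}
    (hfr : ∀ i j, inner ℝ (DD F y (b i)) (DD F y (b j)) = if i = j then t else 0)
    (α : ℝ) (i j : Fin k) :
    inner ℝ (DD F y (riem (Gam α F) y (b i) (b j) (b j))) (DD F y (b i)) =
      if i = j then 0 else
      (inner ℝ (AA F y b i i) (AA F y b j j) - ‖AA F y b i j‖ ^ 2)
      + α * (t * inner ℝ (nrm (DD F y) (F y)) (AA F y b i i)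
        + t * inner ℝ (nrm (DD F y) (F y)) (AA F y b j j) + 2 * t ^ 2)
      + α ^ 2 * (t * inner ℝ (F y) (DD F y (b i)) ^ 2 + t * inner ℝ (F y) (DD F y (b j)) ^ 2
        - (‖F y‖ ^ 2 - ‖nrm (DD F y) (F y)‖ ^ 2) * t ^ 2) := by
  rw [curv_formula h α hy]
  unfold nn AA
  simp only [hfr, ← real_inner_self_eq_norm_sq]
  by_cases hij : i = j
  · subst hij
    simp
    ring
  · simp [hij]
    ring

theorem curv_symm {k : ℕ} (h : Piece F U) {y : Euc n} (hy : y ∈ U) {t : ℝ} {b : Fin k → Euc n}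
    (hfr : ∀ i j, inner ℝ (DD F y (b i)) (DD F y (b j)) = if i = j then t else 0)
    (α : ℝ) (i j : Fin k) :
    inner ℝ (DD F y (riem (Gam α F) y (b i) (b j) (b j))) (DD F y (b i)) =
      inner ℝ (DD F y (riem (Gam α F) y (b j) (b i) (b i))) (DD F y (b j)) := by
  rw [curv_pair h hy hfr, curv_pair h hy hfr]
  by_cases hij : i = j
  · subst hij; rfl
  · rw [if_neg hij, if_neg (Ne.symm hij), AA_symm h hy b j i,
      real_inner_comm (AA F y b j j) (AA F y b i i)]
    ring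

section

variable {k : ℕ} {y : Euc n} {c α : ℝ} {G : Euc n → Euc n → Euc n → ℝ}

/-- rescaling of an orthonormal family -/
theorem frame_scale (hG : ∀ u v, G y u v = Gm α F y u v) {b : Fin k → Euc n}
    (hfr : IsFrame G y b) : ∃ φ t : ℝ, 0 < φ ∧ 0 < t ∧
      (∀ u v, G y u v = φ * inner ℝ (DD F y u) (DD F y v)) ∧
      ∀ i j, inner ℝ (DD F y (b i)) (DD F y (b j)) = if i = j then t else 0 := by
  have hφpos : 0 < Real.exp (-α * inner ℝ (F y) (F y)) := Real.exp_pos _
  refine ⟨Real.exp (-α * inner ℝ (F y) (F y)), (Real.exp (-α * inner ℝ (F y) (F y)))⁻¹, hφpos,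
    inv_pos.2 hφpos, hG, ?_⟩
  set φ := Real.exp (-α * inner ℝ (F y) (F y)) with hφ
  intro i j
  have h1 := hfr i j
  have h0 : G y (b i) (b j) = φ * inner ℝ (DD F y (b i)) (DD F y (b j)) := hG _ _
  rw [h0] at h1
  have h2 : inner ℝ (DD F y (b i)) (DD F y (b j)) = φ⁻¹ * (if i = j then (1 : ℝ) else 0) := by
    rw [← h1, ← mul_assoc, inv_mul_cancel₀ hφpos.ne', one_mul]
  rw [h2]
  split_ifs <;> simp

theorem scal_local (h : Piece F U) (hy : y ∈ U) (hk : 2 ≤ k)
    (hα : α = 3 * k / (2 * (k - 1)))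
    (hb : ∀ u, ‖nrm (DD F y) (HH F y u u)‖ ≤ c * ‖DD F y u‖ ^ 2) (hc : (k + 2) * c ^ 2 < 3 * k)
    (hτ : (k + 2) * (‖F y‖ ^ 2 - ‖nrm (DD F y) (F y)‖ ^ 2) ≤ 2 * (k - 1) * (1 - ‖F y‖ ^ 2))
    (hG : ∀ u v, G y u v = Gm α F y u v)
    {b : Fin k → Euc n} (hfr : IsFrame G y b) :
    0 < scal G (Gam α F) y b := by
  obtain ⟨φ, t, hφpos, htpos, hGi, hfr2⟩ := frame_scale hG hfr
  have key := alg hk (AA_symm h hy b) (n := nrm (DD F y) (F y))
    (l := fun i => inner ℝ (F y) (DD F y (b i))) (α := α) (c := c) (t := t)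
    (τ := ‖F y‖ ^ 2 - ‖nrm (DD F y) (F y)‖ ^ 2) (r2 := ‖F y‖ ^ 2) hα hc htpos
    (fun s hs => dir_bound hb hfr2 s hs)
    (fun i => by
      have h1 := hb (b i)
      have h2 : ‖DD F y (b i)‖ ^ 2 = t := by
        rw [← real_inner_self_eq_norm_sq, hfr2, if_pos rfl]
      rw [h2] at h1
      exact pow_le_pow_left₀ (norm_nonneg _) h1 2)
    (by ring) hτ
  have hsc : scal G (Gam α F) y b = φ * ∑ j, ∑ i,
      inner ℝ (DD F y (riem (Gam α F) y (b i) (b j) (b j))) (DD F y (b i)) := by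
    unfold scal ricci
    simp only [hGi, Finset.mul_sum]
  rw [hsc]
  apply mul_pos hφpos
  simp only [curv_pair h hy hfr2]
  exact key

/-- for an orthonormal family of `k + 1` vectors, `scal - 2 Ric(b_last, b_last)` is the scalar
curvature of the first `k` vectors -/
theorem scal_sub_ricci (h : Piece F U) (hy : y ∈ U)
    (hG : ∀ u v, G y u v = Gm α F y u v)
    {b : Fin (k + 1) → Euc n} (hfr : IsFrame G y b) :
    scal G (Gam α F) y b - 2 * ricci G (Gam α F) y b (b (Fin.last k)) (b (Fin.last k)) =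
      scal G (Gam α F) y (fun i : Fin k => b i.castSucc) := by
  obtain ⟨φ, t, hφpos, htpos, hGi, hfr2⟩ := frame_scale hG hfr
  have hs := curv_symm h hy hfr2 α
  have hd : ∀ i, inner ℝ (DD F y (riem (Gam α F) y (b i) (b i) (b i))) (DD F y (b i)) = 0 := by
    intro i
    rw [curv_pair h hy hfr2, if_pos rfl]
  unfold scal ricci
  simp only [hGi, Fin.sum_univ_castSucc, hd, mul_zero, add_zero, Finset.sum_add_distrib]
  have e1 : ∑ x : Fin k, φ * inner ℝ (DD F y (riem (Gam α F) y (b (Fin.last k)) (b x.castSucc)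
      (b x.castSucc))) (DD F y (b (Fin.last k))) =
      ∑ x : Fin k, φ * inner ℝ (DD F y (riem (Gam α F) y (b x.castSucc) (b (Fin.last k))
      (b (Fin.last k)))) (DD F y (b x.castSucc)) :=
    Finset.sum_congr rfl fun x _ => by rw [hs]
  rw [e1]
  ring

end

end Pool.Agent.KS6_56.KS
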