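import Pool.Agent.KS6_56.KS.Defs

/-! The tangential projection of an immersion. -/

set_option autoImplicit false

open scoped Manifold ContDiff Topology ENNReal
open Function Module

namespace Pool.Agent.KS6_56.KS

variable {n N : ℕ}

/-- `v ↦ (c ↦ ⟨v, A c⟩)` -/
noncomputable def Rop (A : Euc n →L[ℝ] Euc N) : Euc N →L[ℝ] (Euc n →L[ℝ] ℝ) :=
  ((ContinuousLinearMap.compL ℝ (Euc n) (Euc N) ℝ).flip A).comp (innerSL ℝ)

theorem Rop_apply (A : Euc n →L[ℝ] Euc N) (v : Euc N) (c : Euc n) :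
    Rop A v c = inner ℝ v (A c) := by
  simp [Rop]

/-- `u ↦ (c ↦ ⟨A u, A c⟩)` -/
noncomputable def Top (A : Euc n →L[ℝ] Euc N) : Euc n →L[ℝ] (Euc n →L[ℝ] ℝ) := (Rop A).comp A

theorem Top_apply (A : Euc n →L[ℝ] Euc N) (u c : Euc n) :
    Top A u c = inner ℝ (A u) (A c) := by
  simp [Top, Rop_apply]

/-- the coordinates of the tangential part of a vector -/
noncomputable def Qop (A : Euc n →L[ℝ] Euc N) : Euc N →L[ℝ] Euc n := (Top A).inverse.comp (Rop A)

theorem exists_equiv {A : Euc n →L[ℝ] Euc N} (hA : Injective A) :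
    ∃ T : Euc n ≃L[ℝ] (Euc n →L[ℝ] ℝ), (T : Euc n →L[ℝ] (Euc n →L[ℝ] ℝ)) = Top A := by
  have hinj : Injective (Top A) := by
    rw [injective_iff_map_eq_zero]
    intro u hu
    have h1 : Top A u u = 0 := by rw [hu]; rfl
    rw [Top_apply, inner_self_eq_zero] at h1
    exact (injective_iff_map_eq_zero A).1 hA u h1
  have hfin : finrank ℝ (Euc n) = finrank ℝ (Euc n →L[ℝ] ℝ) := by
    rw [(LinearMap.toContinuousLinearMap (𝕜 := ℝ) (E := Euc n) (F' := ℝ)).symm.finrank_eq]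
    exact (Subspace.dual_finrank_eq).symm
  let e : Euc n ≃ₗ[ℝ] (Euc n →L[ℝ] ℝ) :=
    LinearEquiv.ofInjectiveOfFinrankEq (Top A : Euc n →ₗ[ℝ] (Euc n →L[ℝ] ℝ)) hinj hfin
  refine ⟨e.toContinuousLinearEquiv, ?_⟩
  ext u c
  rfl

theorem Qop_spec {A : Euc n →L[ℝ] Euc N} (hA : Injective A) (v : Euc N) (c : Euc n) :
    inner ℝ (A (Qop A v)) (A c) = inner ℝ v (A c) := by
  obtain ⟨T, hT⟩ := exists_equiv hA
  have h1 : Top A (Qop A v) = Rop A v := by
    unfold Qop
    rw [← hT, ContinuousLinearMap.inverse_equiv]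
    simp
  have h2 := congrArg (fun l => l c) h1
  simpa [Top_apply, Rop_apply] using h2

theorem contDiffAt_Qop {A : Euc n →L[ℝ] Euc N} (hA : Injective A) :
    ContDiffAt ℝ ∞ (fun B : Euc n →L[ℝ] Euc N => Qop B) A := by
  obtain ⟨T, hT⟩ := exists_equiv hA
  have hR : ContDiff ℝ ∞ (fun B : Euc n →L[ℝ] Euc N => Rop B) := by
    unfold Rop
    fun_prop
  have hTop : ContDiff ℝ ∞ (fun B : Euc n →L[ℝ] Euc N => Top B) := by
    unfold Top
    fun_prop
  have hinv : ContDiffAt ℝ ∞ (fun B : Euc n →L[ℝ] Euc N => (Top B).inverse) A := by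
    have h := contDiffAt_map_inverse (n := ∞) T
    rw [hT] at h
    exact h.comp A hTop.contDiffAt
  exact hinv.clm_comp hR.contDiffAt

theorem contDiffOn_Qop {F : Euc n → Euc N} {U : Set (Euc n)} (hU : IsOpen U)
    (hF : ContDiffOn ℝ ∞ F U) (himm : ∀ y ∈ U, Injective (fderiv ℝ F y)) :
    ContDiffOn ℝ ∞ (fun y => Qop (fderiv ℝ F y)) U := by
  intro y hy
  have h1 : ContDiffOn ℝ ∞ (fderiv ℝ F) U := hF.fderiv_of_isOpen hU (by simp)
  exact ((contDiffAt_Qop (himm y hy)).comp y (h1.contDiffAt (hU.mem_nhds hy))).contDiffWithinAt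

/-- normal part -/
noncomputable def nrm (A : Euc n →L[ℝ] Euc N) (v : Euc N) : Euc N := v - A (Qop A v)

theorem nrm_inner {A : Euc n →L[ℝ] Euc N} (hA : Injective A) (v : Euc N) (c : Euc n) :
    inner ℝ (nrm A v) (A c) = 0 := by
  unfold nrm
  rw [inner_sub_left, Qop_spec hA, sub_self]

theorem nrm_eq {A : Euc n →L[ℝ] Euc N} (hA : Injective A) (v : Euc N) :
    nrm A v = ((A.range)ᗮ).starProjection v := by
  symm
  apply Submodule.eq_starProjection_of_mem_of_inner_eq_zero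
  · rw [Submodule.mem_orthogonal']
    rintro _ ⟨c, rfl⟩
    exact nrm_inner hA v c
  · intro w hw
    rw [Submodule.mem_orthogonal'] at hw
    have h1 : v - nrm A v = A (Qop A v) := by unfold nrm; abel
    rw [h1, real_inner_comm]
    exact hw _ ⟨_, rfl⟩

end Pool.Agent.KS6_56.KS
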